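import Mathlib

/-!
Upper densities along arbitrary averagings: a counting lemma for families of sets of scales, and a diagonal choice of
scales.
-/

set_option autoImplicit false

open Finset Filter Topology

namespace Pool.H47.AT

/-- an averaging: finitely supported nonnegative weights `w j` on `s j`, of total mass tending to `1`, whose mass
escapes to infinity -/
def IsAvg (s : ℕ → Finset ℕ) (w : ℕ → ℕ → ℝ) : Prop :=
  (∀ j n, 0 ≤ w j n) ∧ Tendsto (fun j => ∑ n ∈ s j, w j n) atTop (𝓝 1) ∧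
    ∀ N : ℕ, Tendsto (fun j => ∑ n ∈ (s j).filter (fun n => n ≤ N), w j n) atTop (𝓝 0)

/-- the mass of a set -/
noncomputable def ms (s : ℕ → Finset ℕ) (w : ℕ → ℕ → ℝ) (X : Set ℕ) (j : ℕ) : ℝ :=
  ∑ n ∈ s j, X.indicator (w j) n

/-- the upper density -/
noncomputable def ud (s : ℕ → Finset ℕ) (w : ℕ → ℕ → ℝ) (X : Set ℕ) : ℝ :=
  Filter.limsup (fun j : ℕ => ∑ n ∈ s j, X.indicator (w j) n) atTop

variable {s : ℕ → Finset ℕ} {w : ℕ → ℕ → ℝ}

lemma ind_nonneg (hw : ∀ j n, 0 ≤ w j n) (X : Set ℕ) (j n : ℕ) : 0 ≤ X.indicator (w j) n :=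
  Set.indicator_nonneg (fun n _ => hw j n) n

lemma ind_le (hw : ∀ j n, 0 ≤ w j n) (X : Set ℕ) (j n : ℕ) : X.indicator (w j) n ≤ w j n :=
  Set.indicator_le_self' (fun n _ => hw j n) n

lemma ms_nonneg (hw : ∀ j n, 0 ≤ w j n) (X : Set ℕ) (j : ℕ) : 0 ≤ ms s w X j :=
  sum_nonneg fun n _ => ind_nonneg hw X j n

lemma ms_le (hw : ∀ j n, 0 ≤ w j n) (X : Set ℕ) (j : ℕ) : ms s w X j ≤ ∑ n ∈ s j, w j n :=
  sum_le_sum fun n _ => ind_le hw X j n

lemma ms_compl (X : Set ℕ) (j : ℕ) : ms s w X j + ms s w Xᶜ j = ∑ n ∈ s j, w j n := by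
  classical
  unfold ms
  rw [← sum_add_distrib]
  refine sum_congr rfl fun n _ => ?_
  by_cases h : n ∈ X
  · rw [Set.indicator_of_mem h, Set.indicator_of_notMem (by simpa using h), add_zero]
  · rw [Set.indicator_of_notMem h, Set.indicator_of_mem (by simpa using h), zero_add]

lemma bdd (h : IsAvg s w) (X : Set ℕ) : IsBoundedUnder (· ≤ ·) atTop (ms s w X) :=
  h.2.1.isBoundedUnder_le.mono_le (Eventually.of_forall (ms_le h.1 X))

lemma cobdd (h : IsAvg s w) (X : Set ℕ) : IsCoboundedUnder (· ≤ ·) atTop (ms s w X) :=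
  IsBoundedUnder.isCoboundedUnder_le (isBoundedUnder_of ⟨0, ms_nonneg h.1 X⟩)

lemma ud_le_one (h : IsAvg s w) (X : Set ℕ) : ud s w X ≤ 1 := by
  calc ud s w X = limsup (ms s w X) atTop := rfl
    _ ≤ limsup (fun j => ∑ n ∈ s j, w j n) atTop :=
      limsup_le_limsup (Eventually.of_forall (ms_le h.1 X)) (cobdd h X) h.2.1.isBoundedUnder_le
    _ = 1 := h.2.1.limsup_eq

lemma ev_of_lt (h : IsAvg s w) {X : Set ℕ} {r : ℝ} (hr : ud s w X < r) :
    ∀ᶠ j : ℕ in atTop, ms s w X j < r :=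
  eventually_lt_of_limsup_lt hr (bdd h X)

lemma fr_of_lt (h : IsAvg s w) {X : Set ℕ} {r : ℝ} (hr : r < ud s w X) :
    ∃ᶠ j : ℕ in atTop, r < ms s w X j :=
  frequently_lt_of_lt_limsup (cobdd h X) hr

/-- if at most `K` of the sets `Bad i`, `i ∈ T`, contain any given large scale, then at most `K / η` of them have a
complement of upper density below `1 - η` -/
theorem cnt (h : IsAvg s w) {ι : Type*} (T : Finset ι) (Bad : ι → Set ℕ) (K : ℕ)
    (hK : ∀ᶠ N : ℕ in atTop, ∀ S : Finset ι, S ⊆ T → (∀ i ∈ S, N ∈ Bad i) → S.card ≤ K)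
    {η : ℝ} (hT : ∀ i ∈ T, ud s w (Bad i)ᶜ < 1 - η) : (T.card : ℝ) * η ≤ K := by
  classical
  obtain ⟨N₀, hN₀⟩ := eventually_atTop.1 hK
  have hL : Tendsto (fun j => (T.card : ℝ) * (∑ n ∈ s j, w j n - 1 + η)) atTop
      (𝓝 ((T.card : ℝ) * (1 - 1 + η))) := ((h.2.1.sub_const 1).add_const η).const_mul _
  have hR : Tendsto (fun j => (K : ℝ) * ∑ n ∈ s j, w j n +
      T.card * ∑ n ∈ (s j).filter (fun n => n ≤ N₀), w j n) atTop
      (𝓝 ((K : ℝ) * 1 + T.card * 0)) := (h.2.1.const_mul _).add ((h.2.2 N₀).const_mul _)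
  have hev : ∀ᶠ j : ℕ in atTop, ∀ i ∈ T, ms s w (Bad i)ᶜ j < 1 - η :=
    (eventually_all_finset T).2 fun i hi => ev_of_lt h (hT i hi)
  have hle := le_of_tendsto_of_tendsto hL hR (by
    filter_upwards [hev] with j hj
    have hlow : (T.card : ℝ) * (∑ n ∈ s j, w j n - 1 + η) ≤ ∑ i ∈ T, ms s w (Bad i) j := by
      rw [← nsmul_eq_mul, ← sum_const]
      refine sum_le_sum fun i hi => ?_
      have h1 := hj i hi
      have h2 := ms_compl (s := s) (w := w) (Bad i) j
      linarith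
    refine hlow.trans ?_
    have e1 : ∑ i ∈ T, ms s w (Bad i) j = ∑ n ∈ s j, ∑ i ∈ T, (Bad i).indicator (w j) n := by
      unfold ms
      rw [sum_comm]
    have e2 : ∀ n : ℕ, ∑ i ∈ T, (Bad i).indicator (w j) n =
        ((T.filter (fun i => n ∈ Bad i)).card : ℝ) * w j n := by
      intro n
      rw [← nsmul_eq_mul, ← sum_const, sum_filter]
      refine sum_congr rfl fun i _ => ?_
      rw [Set.indicator_apply]
    have e3 : ∀ n ∈ s j, ∑ i ∈ T, (Bad i).indicator (w j) n ≤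
        K * w j n + (if n ≤ N₀ then (T.card : ℝ) * w j n else 0) := by
      intro n hn
      rw [e2]
      have hw := h.1 j n
      by_cases h1 : n ≤ N₀
      · rw [if_pos h1]
        have h2 : ((T.filter (fun i => n ∈ Bad i)).card : ℝ) ≤ T.card := by
          exact_mod_cast card_filter_le _ _
        have h3 : ((T.filter (fun i => n ∈ Bad i)).card : ℝ) * w j n ≤ T.card * w j n := by gcongr
        have h4 : 0 ≤ (K : ℝ) * w j n := by positivity
        linarith
      · rw [if_neg h1, add_zero]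
        have h3 : ((T.filter (fun i => n ∈ Bad i)).card : ℝ) ≤ K := by
          exact_mod_cast hN₀ n (by omega) _ (filter_subset _ _) fun i hi => (mem_filter.1 hi).2
        gcongr
    rw [e1]
    refine (sum_le_sum e3).trans ?_
    rw [sum_add_distrib, ← mul_sum, ← sum_filter, ← mul_sum])
  simpa using hle

/-- the parameters which have a bad complement of upper density below one are countable -/
theorem ctb (s : ℕ → ℕ → Finset ℕ) (w : ℕ → ℕ → ℕ → ℝ) (hsw : ∀ i, IsAvg (s i) (w i))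
    (Bad : ℕ → ℝ → Set ℕ) (hD : ∀ m, ∃ (K : ℕ) (c : ℝ), 0 < c ∧ ∀ T : Finset ℝ,
      (∀ θ ∈ T, ∀ θ' ∈ T, |θ - θ'| ≤ c) → ∀ᶠ N : ℕ in atTop, ∀ S : Finset ℝ, S ⊆ T →
      (∀ θ ∈ S, N ∈ Bad m θ) → S.card ≤ K) :
    {θ : ℝ | ∃ i m, ud (s i) (w i) (Bad m θ)ᶜ < 1}.Countable := by
  classical
  choose K c hc hK using hD
  have hsub : {θ : ℝ | ∃ i m, ud (s i) (w i) (Bad m θ)ᶜ < 1} ⊆
      ⋃ (i : ℕ) (m : ℕ) (r : ℕ) (j : ℤ),
        {θ : ℝ | ⌊θ / c m⌋ = j ∧ ud (s i) (w i) (Bad m θ)ᶜ < 1 - 1 / ((r : ℝ) + 1)} := by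
    rintro θ ⟨i, m, hm⟩
    obtain ⟨r, hr⟩ := exists_nat_one_div_lt (sub_pos.2 hm)
    simp only [Set.mem_iUnion]
    exact ⟨i, m, r, _, rfl, by linarith⟩
  refine Set.Countable.mono hsub ?_
  refine Set.countable_iUnion fun i => Set.countable_iUnion fun m => Set.countable_iUnion fun r =>
    Set.countable_iUnion fun j => ?_
  refine Set.Finite.countable ?_
  by_contra hinf
  obtain ⟨n, hn⟩ := exists_nat_gt ((K m : ℝ) * ((r : ℝ) + 1))
  obtain ⟨T, hT, hTc⟩ := Set.Infinite.exists_subset_card_eq hinf n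
  have hcl : ∀ θ ∈ T, ∀ θ' ∈ T, |θ - θ'| ≤ c m := by
    intro θ hθ θ' hθ'
    have h1 := (hT hθ).1
    have h2 := (hT hθ').1
    have hcm := hc m
    have e1 := Int.floor_le (θ / c m)
    have e2 := Int.lt_floor_add_one (θ / c m)
    have e3 := Int.floor_le (θ' / c m)
    have e4 := Int.lt_floor_add_one (θ' / c m)
    rw [h1] at e1 e2
    rw [h2] at e3 e4
    rw [le_div_iff₀ hcm] at e1 e3
    rw [div_lt_iff₀ hcm] at e2 e4
    rw [abs_le]
    constructor <;> nlinarith
  have h3 := cnt (hsw i) T (Bad m) (K m) (hK m T hcl) (η := 1 / ((r : ℝ) + 1))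
    fun i hi => (hT hi).2
  rw [hTc, mul_one_div, div_le_iff₀ (by positivity)] at h3
  linarith

/-- the same count in a bounded interval -/
theorem cnt_interval (h : IsAvg s w) (Bad : ℝ → Set ℕ) (K : ℕ) {c : ℝ} (hc : 0 < c)
    (hK : ∀ T : Finset ℝ,
      (∀ θ ∈ T, ∀ θ' ∈ T, |θ - θ'| ≤ c) → ∀ᶠ N : ℕ in atTop, ∀ S : Finset ℝ, S ⊆ T →
      (∀ θ ∈ S, N ∈ Bad θ) → S.card ≤ K) {η : ℝ} (hη : 0 < η) (R : ℝ) (T : Finset ℝ)
    (hT : ∀ θ ∈ T, |θ| ≤ R ∧ ud s w (Bad θ)ᶜ < 1 - η) :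
    T.card ≤ ⌊(K : ℝ) / η⌋₊ * (Icc ⌊-R / c⌋ ⌊R / c⌋).card := by
  classical
  have h1 : T.card ≤ ⌊(K : ℝ) / η⌋₊ * (T.image fun θ => ⌊θ / c⌋).card := by
    refine card_le_mul_card_image T _ fun j _ => ?_
    rw [Nat.le_floor_iff (by positivity), le_div_iff₀ hη]
    refine cnt h _ Bad K (hK _ ?_) fun i hi => (hT i (mem_filter.1 hi).1).2
    intro θ hθ θ' hθ'
    have h1 := (mem_filter.1 hθ).2
    have h2 := (mem_filter.1 hθ').2
    have e1 := Int.floor_le (θ / c)
    have e2 := Int.lt_floor_add_one (θ / c)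
    have e3 := Int.floor_le (θ' / c)
    have e4 := Int.lt_floor_add_one (θ' / c)
    rw [h1] at e1 e2
    rw [h2] at e3 e4
    rw [le_div_iff₀ hc] at e1 e3
    rw [div_lt_iff₀ hc] at e2 e4
    rw [abs_le]
    constructor <;> nlinarith
  refine h1.trans (Nat.mul_le_mul_left _ (card_le_card ?_))
  intro j hj
  rw [mem_image] at hj
  obtain ⟨θ, hθ, rfl⟩ := hj
  have h2 := abs_le.1 (hT θ hθ).1
  rw [mem_Icc]
  constructor
  · exact Int.floor_le_floor (div_le_div_of_nonneg_right h2.1 hc.le)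
  · exact Int.floor_le_floor (div_le_div_of_nonneg_right h2.2 hc.le)

/-- diagonal choice, for countably many averagings at once -/
theorem diag (s : ℕ → ℕ → Finset ℕ) (w : ℕ → ℕ → ℕ → ℝ) (hsw : ∀ i, IsAvg (s i) (w i))
    (G : ℕ → Set ℕ) (hG : ∀ m, G (m + 1) ⊆ G m) (h1 : ∀ i m, 1 ≤ ud (s i) (w i) (G m)) :
    ∃ X : Set ℕ, (∀ i, ud (s i) (w i) X = 1) ∧ ∀ m, ∃ x₀ : ℕ, ∀ x ∈ X, x₀ ≤ x → x ∈ G m := by
  classical
  have hanti : Antitone G := antitone_nat_of_succ_le hG
  have hstep : ∀ m y : ℕ, ∃ x j : ℕ, y < x ∧ m ≤ j ∧ (∀ n ∈ s (Nat.unpair m).1 j, n ≤ x) ∧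
      ∑ n ∈ (s (Nat.unpair m).1 j).filter (fun n => n ≤ y), w (Nat.unpair m).1 j n <
        1 / ((m : ℝ) + 1) ∧
      (1 - 1 / ((m : ℝ) + 1)) < ms (s (Nat.unpair m).1) (w (Nat.unpair m).1) (G m) j := by
    intro m y
    have hpos : (0 : ℝ) < 1 / ((m : ℝ) + 1) := by positivity
    have hfr := fr_of_lt (hsw (Nat.unpair m).1) (X := G m) (r := 1 - 1 / ((m : ℝ) + 1))
      (lt_of_lt_of_le (by linarith) (h1 _ m))
    have hev := ((hsw (Nat.unpair m).1).2.2 y).eventually_lt_const hpos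
    obtain ⟨j, hj1, hj2, hj3⟩ := (hfr.and_eventually (hev.and (eventually_ge_atTop m))).exists
    refine ⟨max (y + 1) ((s (Nat.unpair m).1 j).sup id), j, by
      have := le_max_left (y + 1) ((s (Nat.unpair m).1 j).sup id)
      omega, hj3, fun n hn => ?_, hj2, hj1⟩
    exact (le_sup (f := id) hn).trans (le_max_right _ _)
  choose g jj hg1 hg2 hg3 hg4 hg5 using hstep
  set xs : ℕ → ℕ := fun m => Nat.rec (motive := fun _ => ℕ) 1 (fun j y => g j y) m with hxs
  have hxs1 : ∀ m, xs (m + 1) = g m (xs m) := fun m => rfl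
  have hmono : StrictMono xs := strictMono_nat_of_lt_succ fun m => by
    rw [hxs1]
    exact hg1 m (xs m)
  set X : Set ℕ := {n | ∃ m, xs m < n ∧ n ≤ xs (m + 1) ∧ n ∈ G m} with hX
  refine ⟨X, fun i => le_antisymm (ud_le_one (hsw i) X) ?_,
    fun m => ⟨xs m + 1, fun x hx hxm => ?_⟩⟩
  · refine le_of_forall_pos_le_add fun ε hε => ?_
    have hfr : ∃ᶠ y : ℕ in atTop, 1 - ε ≤ ms (s i) (w i) X y := by
      rw [frequently_atTop]
      intro b
      obtain ⟨q, hq⟩ := exists_nat_one_div_lt (half_pos hε)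
      set m : ℕ := Nat.pair i (max q b) with hm
      have hmi : (Nat.unpair m).1 = i := by rw [hm, Nat.unpair_pair]
      have hmq : max q b ≤ m := Nat.right_le_pair i (max q b)
      have hm2 : 1 / ((m : ℝ) + 1) ≤ ε / 2 := by
        have h2 : 1 / ((m : ℝ) + 1) ≤ 1 / ((q : ℝ) + 1) := by
          apply one_div_le_one_div_of_le (by positivity)
          have : (q : ℝ) ≤ m := by exact_mod_cast (le_max_left q b).trans hmq
          linarith
        linarith
      have h3 := hg2 m (xs m)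
      have h4 := hg3 m (xs m)
      have h5 := hg4 m (xs m)
      have h6 := hg5 m (xs m)
      rw [hmi] at h4 h5 h6
      refine ⟨jj m (xs m), (le_max_right q b).trans (hmq.trans h3), ?_⟩
      have h7 : ms (s i) (w i) (G m) (jj m (xs m)) ≤ ms (s i) (w i) X (jj m (xs m)) +
          ∑ n ∈ (s i (jj m (xs m))).filter (fun n => n ≤ xs m), w i (jj m (xs m)) n := by
        unfold ms
        rw [sum_filter, ← sum_add_distrib]
        refine sum_le_sum fun n hn => ?_
        by_cases h8 : n ≤ xs m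
        · rw [if_pos h8]
          have := ind_nonneg (hsw i).1 X (jj m (xs m)) n
          have := ind_le (hsw i).1 (G m) (jj m (xs m)) n
          linarith
        · rw [if_neg h8, add_zero]
          by_cases h9 : n ∈ G m
          · have h10 : n ∈ X := ⟨m, by omega, by rw [hxs1]; exact h4 n hn, h9⟩
            rw [Set.indicator_of_mem h9, Set.indicator_of_mem h10]
          · rw [Set.indicator_of_notMem h9]
            exact ind_nonneg (hsw i).1 X _ n
      linarith
    have h2 : 1 - ε ≤ limsup (ms (s i) (w i) X) atTop :=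
      le_limsup_of_frequently_le hfr (bdd (hsw i) X)
    calc (1 : ℝ) = 1 - ε + ε := by ring
      _ ≤ limsup (ms (s i) (w i) X) atTop + ε := by gcongr
      _ = ud (s i) (w i) X + ε := rfl
  · obtain ⟨i, hi1, hi2, hi3⟩ := hx
    have h2 : m ≤ i := by
      by_contra hlt
      push Not at hlt
      have h3 := hmono.monotone (show i + 1 ≤ m by omega)
      omega
    exact hanti h2 hi3

/-! ### logarithmic averages -/

/-- upper logarithmic density -/
noncomputable def uld (X : Set ℕ) : ℝ :=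
  Filter.limsup (fun x : ℕ => (∑ n ∈ Finset.Icc 1 x, X.indicator (fun n => 1 / (n : ℝ)) n)
    / Real.log x) atTop

/-- logarithmic weights -/
noncomputable def lw (x n : ℕ) : ℝ := 1 / (n : ℝ) / Real.log x

lemma uld_eq (X : Set ℕ) : uld X = ud (fun x => Icc 1 x) lw X := by
  unfold uld ud
  congr 1
  funext x
  rw [sum_div]
  refine sum_congr rfl fun n _ => ?_
  unfold lw
  by_cases h : n ∈ X
  · rw [Set.indicator_of_mem h, Set.indicator_of_mem h]
  · rw [Set.indicator_of_notMem h, Set.indicator_of_notMem h, zero_div]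

lemma harm_up (b : ℕ) : ∑ n ∈ Icc 1 b, 1 / (n : ℝ) ≤ 1 + Real.log b := by
  have h1 := harmonic_le_one_add_log b
  rw [harmonic_eq_sum_Icc] at h1
  push_cast at h1
  simpa only [one_div] using h1

lemma harm_low (b : ℕ) : Real.log b ≤ ∑ n ∈ Icc 1 b, 1 / (n : ℝ) := by
  have h1 := log_add_one_le_harmonic b
  rw [harmonic_eq_sum_Icc] at h1
  push_cast at h1
  have h2 : Real.log b ≤ Real.log ((b : ℝ) + 1) := by
    rcases Nat.eq_zero_or_pos b with h0 | h0
    · subst h0; simp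
    · apply Real.log_le_log (by exact_mod_cast h0)
      linarith
  refine h2.trans ?_
  simpa only [one_div] using h1

lemma tlog : Tendsto (fun y : ℕ => Real.log y) atTop atTop :=
  Real.tendsto_log_atTop.comp tendsto_natCast_atTop_atTop

lemma tquo : Tendsto (fun y : ℕ => (1 + Real.log y) / Real.log y) atTop (𝓝 1) := by
  have h1 : Tendsto (fun y : ℕ => (Real.log y)⁻¹ + 1) atTop (𝓝 (0 + 1)) :=
    (tendsto_inv_atTop_zero.comp tlog).add_const 1
  rw [zero_add] at h1
  refine h1.congr' ?_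
  filter_upwards [eventually_ge_atTop 2] with y hy
  have : 0 < Real.log y := Real.log_pos (by exact_mod_cast hy)
  field_simp

lemma log_isAvg : IsAvg (fun x => Icc 1 x) lw := by
  classical
  refine ⟨fun j n => ?_, ?_, fun N => ?_⟩
  · unfold lw
    have := Real.log_natCast_nonneg j
    positivity
  · have h0 : ∀ j : ℕ, ∑ n ∈ Icc 1 j, lw j n = (∑ n ∈ Icc 1 j, 1 / (n : ℝ)) / Real.log j := by
      intro j
      rw [sum_div]
      rfl
    simp only [h0]
    refine tendsto_of_tendsto_of_tendsto_of_le_of_le' tendsto_const_nhds tquo ?_ ?_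
    · filter_upwards [eventually_ge_atTop 2] with y hy
      have : 0 < Real.log y := Real.log_pos (by exact_mod_cast hy)
      rw [le_div_iff₀ this, one_mul]
      exact harm_low y
    · refine Eventually.of_forall fun y => ?_
      exact div_le_div_of_nonneg_right (harm_up y) (Real.log_natCast_nonneg y)
  · have h2 : Tendsto (fun y : ℕ => (1 + Real.log N) * (Real.log y)⁻¹) atTop
        (𝓝 ((1 + Real.log N) * 0)) := (tendsto_inv_atTop_zero.comp tlog).const_mul _
    rw [mul_zero] at h2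
    refine squeeze_zero (fun j => sum_nonneg fun n _ => ?_) (fun j => ?_) h2
    · unfold lw
      have := Real.log_natCast_nonneg j
      positivity
    · rw [← div_eq_mul_inv]
      have h3 : ∑ n ∈ (Icc 1 j).filter (fun n => n ≤ N), lw j n =
          (∑ n ∈ (Icc 1 j).filter (fun n => n ≤ N), 1 / (n : ℝ)) / Real.log j := by
        rw [sum_div]
        rfl
      rw [h3]
      refine div_le_div_of_nonneg_right (le_trans ?_ (harm_up N)) (Real.log_natCast_nonneg j)
      refine sum_le_sum_of_subset_of_nonneg (fun n hn => ?_) fun n _ _ => by positivity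
      rw [mem_filter, mem_Icc] at hn
      rw [mem_Icc]
      exact ⟨hn.1.1, hn.2⟩

end Pool.H47.AT
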