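import Mathlib
import Pool.Agent.H2.BS.ExOm
import Pool.Agent.H47.AT.Soft

/-!
Twists of an arbitrary bounded function by `exp(i θ a(n))`, `a` additive: all but countably many real `θ` satisfy
the conclusion of Q1 of MP_050d88_nt.
-/

set_option autoImplicit false

open Finset Filter Topology

namespace Pool.H47.AT

open Pool.H2.BS Pool.H2.EL Pool.H2.MT Pool.Agent.H1.LP

/-- multiplicative, with values in the closed unit disc, on the positive integers -/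
def IsMult (f : ℕ → ℂ) : Prop :=
  f 1 = 1 ∧ (∀ m n : ℕ, 0 < m → 0 < n → Nat.Coprime m n → f (m * n) = f m * f n) ∧
    ∀ n : ℕ, 0 < n → ‖f n‖ ≤ 1

/-- additive on the positive integers -/
def IsAdd (a : ℕ → ℝ) : Prop :=
  ∀ m n : ℕ, 0 < m → 0 < n → Nat.Coprime m n → a (m * n) = a m + a n

/-- the average -/
noncomputable def avg {k : ℕ} (F : Fin (k + 1) → ℕ → ℂ) (h : Fin (k + 1) → ℕ) (x : ℕ) : ℂ :=
  (1 / (x : ℂ)) * ∑ n ∈ Finset.Icc 1 x, ∏ i, F i (n + h i)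

/-- the twisted function -/
noncomputable def twist (d : ℕ → ℂ) (a : ℕ → ℝ) (θ : ℝ) : ℕ → ℂ :=
  fun n => d n * Complex.exp (((θ * a n : ℝ) : ℂ) * Complex.I)

/-- the bound `ε` at the scale `x` -/
def GoodAt {k : ℕ} (h : Fin (k + 1) → ℕ) (ε : ℝ) (f₁ : ℕ → ℂ) (x : ℕ) : Prop :=
  ∀ F : Fin (k + 1) → ℕ → ℂ, F 0 = f₁ → (∀ i, i ≠ 0 → IsMult (F i)) → ‖avg F h x‖ ≤ ε

/-- extension by zero -/
noncomputable def toA (f : ℕ → ℂ) : ArithmeticFunction ℂ :=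
  ⟨fun n => if n = 0 then 0 else f n, by simp⟩

lemma toA_apply (f : ℕ → ℂ) (n : ℕ) : toA f n = if n = 0 then 0 else f n := rfl

lemma toA_pos (f : ℕ → ℂ) {n : ℕ} (hn : 0 < n) : toA f n = f n := by
  rw [toA_apply, if_neg hn.ne']

lemma toA_mult {f : ℕ → ℂ} (hf1 : f 1 = 1)
    (hf : ∀ m n : ℕ, 0 < m → 0 < n → Nat.Coprime m n → f (m * n) = f m * f n) :
    (toA f).IsMultiplicative := by
  constructor
  · rw [toA_pos f one_pos]
    exact hf1
  · intro m n hmn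
    rcases Nat.eq_zero_or_pos m with rfl | hm
    · simp
    rcases Nat.eq_zero_or_pos n with rfl | hn
    · simp
    rw [toA_pos f hm, toA_pos f hn, toA_pos f (Nat.mul_pos hm hn)]
    exact hf m n hm hn hmn

lemma toA_bdd {f : ℕ → ℂ} (hf : ∀ n : ℕ, 0 < n → ‖f n‖ ≤ 1) (n : ℕ) : ‖toA f n‖ ≤ 1 := by
  rw [toA_apply]
  split_ifs with h
  · simp
  · exact hf n (Nat.pos_of_ne_zero h)

/-- the twisting factor -/
noncomputable def zf (a : ℕ → ℝ) (θ : ℝ) : ℕ → ℂ :=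
  fun n => Complex.exp (((θ * a n : ℝ) : ℂ) * Complex.I)

lemma zf_norm (a : ℕ → ℝ) (θ : ℝ) (n : ℕ) : ‖zf a θ n‖ = 1 := Complex.norm_exp_ofReal_mul_I _

lemma zf_mult {a : ℕ → ℝ} (ha : IsAdd a) (θ : ℝ) : (toA (zf a θ)).IsMultiplicative := by
  have h1 : a 1 = 0 := by
    have := ha 1 1 one_pos one_pos (Nat.coprime_one_right 1)
    rw [one_mul] at this
    linarith
  refine toA_mult ?_ fun m n hm hn hmn => ?_
  · unfold zf
    rw [h1, mul_zero, Complex.ofReal_zero, zero_mul, Complex.exp_zero]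
  · unfold zf
    rw [ha m n hm hn hmn, ← Complex.exp_add]
    congr 1
    push_cast
    ring

lemma zf_pair (a : ℕ → ℝ) (θ θ' : ℝ) (n : ℕ) :
    (zf a θ n * (starRingEnd ℂ) (zf a θ' n)).re = Real.cos ((θ - θ') * a n) := by
  unfold zf
  rw [Complex.mul_re, Complex.conj_re, Complex.conj_im, Complex.exp_ofReal_mul_I_re,
    Complex.exp_ofReal_mul_I_re, Complex.exp_ofReal_mul_I_im, Complex.exp_ofReal_mul_I_im,
    sub_mul, Real.cos_sub]
  ring

lemma ds_zf (a : ℕ → ℝ) (θ θ' : ℝ) (y x : ℝ) :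
    distSq (fun n => toA (zf a θ) n * (starRingEnd ℂ) (toA (zf a θ') n))
      (1 : DirichletCharacter ℂ 1) 0 y x =
      ∑ p ∈ (Ioc ⌊y⌋₊ ⌊x⌋₊).filter Nat.Prime, (1 - Real.cos ((θ - θ') * a p)) / (p : ℝ) := by
  rw [ds_one]
  refine sum_congr rfl fun p hp => ?_
  rw [mem_filter] at hp
  rw [toA_pos _ hp.2.pos, toA_pos _ hp.2.pos, zf_pair]

lemma ds_up {a : ℕ → ℝ} {C : ℝ} (hC : ∀ p : ℕ, p.Prime → |a p| ≤ C) (s : ℝ) (S : Finset ℕ) :
    ∑ p ∈ S.filter Nat.Prime, (1 - Real.cos (s * a p)) / (p : ℝ) ≤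
      s ^ 2 * C ^ 2 / 2 * ∑ p ∈ S.filter Nat.Prime, 1 / (p : ℝ) := by
  rw [mul_sum]
  refine sum_le_sum fun p hp => ?_
  rw [mem_filter] at hp
  rw [mul_one_div]
  refine div_le_div_of_nonneg_right ?_ (Nat.cast_nonneg p)
  have h1 := Real.one_sub_sq_div_two_le_cos (x := s * a p)
  have h2 : a p ^ 2 ≤ C ^ 2 := by
    rw [← sq_abs (a p)]
    exact pow_le_pow_left₀ (abs_nonneg _) (hC p hp.2) 2
  have h3 : (s * a p) ^ 2 ≤ s ^ 2 * C ^ 2 := by
    rw [mul_pow]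
    exact mul_le_mul_of_nonneg_left h2 (sq_nonneg s)
  linarith

lemma far {a : ℕ → ℝ} {C : ℝ} (hC : ∀ p : ℕ, p.Prime → |a p| ≤ C)
    (hdiv : ¬ Summable (fun p : ℕ => if p.Prime then a p ^ 2 / (p : ℝ) else 0))
    {s : ℝ} (hs : s ≠ 0) (hsC : |s| * C ≤ Real.pi) :
    Tendsto (fun N : ℕ => ∑ p ∈ (Ioc 0 N).filter Nat.Prime,
      (1 - Real.cos (s * a p)) / (p : ℝ)) atTop atTop := by
  have h0 : Tendsto (fun N : ℕ => ∑ p ∈ range N,
      (fun p : ℕ => if p.Prime then a p ^ 2 / (p : ℝ) else 0) p) atTop atTop := by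
    refine (not_summable_iff_tendsto_nat_atTop_of_nonneg fun p => ?_).1 hdiv
    split_ifs
    · positivity
    · exact le_rfl
  have hpi := Real.pi_pos
  have hpos : 0 < 2 / Real.pi ^ 2 * s ^ 2 := by positivity
  refine tendsto_atTop_mono (fun N => ?_) (h0.const_mul_atTop hpos)
  rw [← sum_filter, mul_sum]
  calc ∑ p ∈ (range N).filter Nat.Prime, 2 / Real.pi ^ 2 * s ^ 2 * (a p ^ 2 / (p : ℝ))
      ≤ ∑ p ∈ (Ioc 0 N).filter Nat.Prime, 2 / Real.pi ^ 2 * s ^ 2 * (a p ^ 2 / (p : ℝ)) := by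
        refine sum_le_sum_of_subset_of_nonneg ?_ fun p _ _ => by positivity
        intro p hp
        rw [mem_filter, mem_range] at hp
        rw [mem_filter, mem_Ioc]
        exact ⟨⟨hp.2.pos, hp.1.le⟩, hp.2⟩
    _ ≤ _ := by
        refine sum_le_sum fun p hp => ?_
        rw [mem_filter] at hp
        rw [← mul_div_assoc]
        refine div_le_div_of_nonneg_right ?_ (Nat.cast_nonneg p)
        have h1 : |s * a p| ≤ Real.pi := by
          rw [abs_mul]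
          exact (mul_le_mul_of_nonneg_left (hC p hp.2) (abs_nonneg s)).trans hsC
        have h2 := Real.cos_le_one_sub_mul_cos_sq h1
        have h3 : 2 / Real.pi ^ 2 * (s * a p) ^ 2 = 2 / Real.pi ^ 2 * s ^ 2 * a p ^ 2 := by ring
        linarith

/-- at every large scale at most `K` of any finitely many near parameters are bad -/
theorem stepA {a : ℕ → ℝ} (ha : IsAdd a) {C : ℝ} (hC : ∀ p : ℕ, p.Prime → |a p| ≤ C)
    (hdiv : ¬ Summable (fun p : ℕ => if p.Prime then a p ^ 2 / (p : ℝ) else 0))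
    (k : ℕ) (h : Fin (k + 1) → ℕ) (hne : ∀ i, i ≠ 0 → h i ≠ h 0) {ε : ℝ} (hε : 0 < ε) :
    ∃ (K : ℕ) (c : ℝ), 0 < c ∧ ∀ d : ℕ → ℂ, (∀ n, 0 < n → ‖d n‖ ≤ 1) → ∀ T : Finset ℝ,
      (∀ θ ∈ T, ∀ θ' ∈ T, |θ - θ'| ≤ c) → ∀ᶠ N : ℕ in atTop, ∀ S : Finset ℝ, S ⊆ T →
      (∀ θ ∈ S, ¬ GoodAt h ε (twist d a θ) N) → S.card ≤ K := by
  classical
  obtain ⟨K, α, hα, hα1, hbes⟩ := bes (k + 1) (fun i => (h i : ℤ)) 0
    (fun i hi => by exact_mod_cast hne i hi) hε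
  obtain ⟨D, N0, hbes⟩ := hbes 1
  obtain ⟨B, hB, N1, hmass⟩ := mass_tail hα
  have hC0 : 0 ≤ C := (abs_nonneg _).trans (hC 2 Nat.prime_two)
  set C1 : ℝ := C + 1 with hC1
  have hC1pos : 0 < C1 := by positivity
  have hC' : ∀ p : ℕ, p.Prime → |a p| ≤ C1 := fun p hp => (hC p hp).trans (by rw [hC1]; linarith)
  have hpi := Real.pi_pos
  refine ⟨K, min (Real.pi / C1) (Real.sqrt (2 * α / (C1 ^ 2 * B))), by positivity,
    fun d hd T hT => ?_⟩
  have hev : ∀ᶠ N : ℕ in atTop, ∀ θ ∈ T, ∀ θ' ∈ T, θ ≠ θ' →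
      D ≤ ∑ p ∈ (Ioc 0 N).filter Nat.Prime, (1 - Real.cos ((θ - θ') * a p)) / (p : ℝ) := by
    refine (eventually_all_finset T).2 fun θ hθ => (eventually_all_finset T).2 fun θ' hθ' => ?_
    rcases eq_or_ne θ θ' with he | he
    · exact Eventually.of_forall fun N hn => absurd he hn
    · have h1 := (hT θ hθ θ' hθ').trans (min_le_left _ _)
      rw [le_div_iff₀ hC1pos] at h1
      filter_upwards [(far hC' hdiv (sub_ne_zero.2 he) h1).eventually_ge_atTop D] with N hN _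
      exact hN
  filter_upwards [hev, eventually_ge_atTop (N0 + N1)] with N hfar hN S hST hbad
  by_contra hcard
  push Not at hcard
  obtain ⟨S', hS', hS'c⟩ := exists_subset_card_eq (Nat.succ_le_of_lt hcard)
  obtain ⟨e, he, heS⟩ : ∃ e : Fin (K + 1) → ℝ, Function.Injective e ∧ ∀ i, e i ∈ S' :=
    ⟨fun i => S'.orderEmbOfFin hS'c i, (S'.orderEmbOfFin hS'c).injective,
      fun i => orderEmbOfFin_mem S' hS'c i⟩
  have heT : ∀ i, e i ∈ T := fun i => hST (hS' (heS i))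
  obtain ⟨m, hm⟩ := hbes N (by omega) (fun i => toA (zf a (e i))) (fun i => zf_mult ha _)
    (fun i n => toA_bdd (fun n _ => (zf_norm a _ n).le) n) (by
      intro i i' hii
      refine ⟨1, 1, 0, one_pos, le_rfl, by simp, ?_, ?_⟩
      · rw [ds_zf]
        refine (ds_up hC' (e i - e i') _).trans ?_
        have h1 := (hT _ (heT i) _ (heT i')).trans (min_le_right _ _)
        have h2 : (e i - e i') ^ 2 ≤ 2 * α / (C1 ^ 2 * B) := by
          rw [← sq_abs]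
          have := pow_le_pow_left₀ (abs_nonneg _) h1 2
          rwa [Real.sq_sqrt (by positivity)] at this
        have h3 := hmass N (by omega)
        have h4 : (0 : ℝ) ≤ ∑ p ∈ (Ioc ⌊(N : ℝ) ^ α⌋₊ ⌊(N : ℝ)⌋₊).filter Nat.Prime,
            1 / (p : ℝ) := sum_nonneg fun p _ => by positivity
        calc (e i - e i') ^ 2 * C1 ^ 2 / 2 * _ ≤ (2 * α / (C1 ^ 2 * B)) * C1 ^ 2 / 2 * B := by
              refine mul_le_mul ?_ h3 h4 (by positivity)
              gcongr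
          _ = α := by
              field_simp
      · rw [ds_zf, Nat.floor_zero, Nat.floor_natCast]
        exact hfar _ (heT i) _ (heT i') fun h1 => hii (he h1)) (univ.erase 0) (by simp)
    (fun _ => toA d) (fun _ n => toA_bdd hd n)
  refine hbad (e m) (hS' (heS m)) fun F hF0 hF => ?_
  have h1 := hm (fun i => toA (F i)) (fun i n => by
      rcases eq_or_ne i 0 with hi | hi
      · subst hi
        refine toA_bdd (fun n hn => ?_) n
        rw [hF0]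
        unfold twist
        rw [norm_mul, Complex.norm_exp_ofReal_mul_I, mul_one]
        exact hd n hn
      · exact toA_bdd (hF i hi).2.2 n)
    (fun i hi => toA_mult (hF i (ne_of_mem_erase hi)).1 (hF i (ne_of_mem_erase hi)).2.1)
    (fun i hi hi0 => absurd (mem_erase.2 ⟨hi0, mem_univ i⟩) hi)
    (fun n => by
      rcases Nat.eq_zero_or_pos n with hn | hn
      · subst hn
        simp
      · rw [toA_pos _ hn, toA_pos _ hn, toA_pos _ hn, hF0]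
        rfl)
  have h2 : avg F h N = (1 / (N : ℂ)) * ∑ n ∈ Icc 1 N, ∏ x, toA (F x) ((n : ℤ) + (h x : ℤ)).toNat := by
    unfold avg
    congr 1
    refine sum_congr rfl fun n hn => prod_congr rfl fun x _ => ?_
    rw [mem_Icc] at hn
    have h3 : ((n : ℤ) + (h x : ℤ)).toNat = n + h x := by omega
    rw [h3, toA_pos _ (by omega)]
  rw [h2]
  exact h1

/-- the conclusion of Q1 for `f₁` along `X`, uniformly in the other functions -/
def AllOn (X : Set ℕ) (f₁ : ℕ → ℂ) : Prop :=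
  ∀ (k : ℕ) (h : Fin (k + 1) → ℕ), (∀ i, i ≠ 0 → h i ≠ h 0) → ∀ ε : ℝ, 0 < ε →
    ∃ x₀ : ℕ, ∀ x ∈ X, x₀ ≤ x → GoodAt h ε f₁ x

theorem part1 {a : ℕ → ℝ} (ha : IsAdd a) {C : ℝ} (hC : ∀ p : ℕ, p.Prime → |a p| ≤ C)
    (hdiv : ¬ Summable (fun p : ℕ => if p.Prime then a p ^ 2 / (p : ℝ) else 0))
    (k : ℕ) (h : Fin (k + 1) → ℕ) (hne : ∀ i, i ≠ 0 → h i ≠ h 0) {ε η : ℝ} (hε : 0 < ε)
    (hη : 0 < η) (R : ℝ) :
    ∃ K : ℕ, ∀ (s : ℕ → Finset ℕ) (w : ℕ → ℕ → ℝ), IsAvg s w →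
      ∀ d : ℕ → ℂ, (∀ n, 0 < n → ‖d n‖ ≤ 1) → ∀ T : Finset ℝ,
      (∀ θ ∈ T, |θ| ≤ R ∧ ud s w {x | GoodAt h ε (twist d a θ) x} < 1 - η) → T.card ≤ K := by
  obtain ⟨K, c, hc, hK⟩ := stepA ha hC hdiv k h hne hε
  refine ⟨⌊(K : ℝ) / η⌋₊ * (Icc ⌊-R / c⌋ ⌊R / c⌋).card, fun s w hsw d hd T hT => ?_⟩
  refine cnt_interval hsw (fun θ => {x | ¬ GoodAt h ε (twist d a θ) x}) K hc (hK d hd) hη R T
    fun θ hθ => ⟨(hT θ hθ).1, ?_⟩
  have h1 : ({x | ¬ GoodAt h ε (twist d a θ) x} : Set ℕ)ᶜ = {x | GoodAt h ε (twist d a θ) x} := by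
    ext x
    simp
  rw [h1]
  exact (hT θ hθ).2

/-- the logarithmic averaging added in front of a sequence of averagings -/
lemma addLog (s : ℕ → ℕ → Finset ℕ) (w : ℕ → ℕ → ℕ → ℝ) (hsw : ∀ i, IsAvg (s i) (w i)) :
    ∃ (s' : ℕ → ℕ → Finset ℕ) (w' : ℕ → ℕ → ℕ → ℝ),
      (∀ i, IsAvg (s' i) (w' i)) ∧ (∀ X, uld X = ud (s' 0) (w' 0) X) ∧
      ∀ i X, ud (s i) (w i) X = ud (s' (i + 1)) (w' (i + 1)) X := by
  refine ⟨fun i => if i = 0 then (fun x => Icc 1 x) else s (i - 1),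
    fun i => if i = 0 then lw else w (i - 1), fun i => ?_, fun X => ?_, fun i X => ?_⟩
  · by_cases hi : i = 0
    · simp only [if_pos hi]
      exact log_isAvg
    · simp only [if_neg hi]
      exact hsw _
  · simp only [if_true]
    exact uld_eq X
  · simp only [Nat.succ_ne_zero, if_false, Nat.add_sub_cancel]

theorem part2 {a : ℕ → ℝ} (ha : IsAdd a) {C : ℝ} (hC : ∀ p : ℕ, p.Prime → |a p| ≤ C)
    (hdiv : ¬ Summable (fun p : ℕ => if p.Prime then a p ^ 2 / (p : ℝ) else 0))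
    (s : ℕ → ℕ → Finset ℕ) (w : ℕ → ℕ → ℕ → ℝ) (hsw : ∀ i, IsAvg (s i) (w i))
    (d : ℕ → ℂ) (hd : ∀ n, 0 < n → ‖d n‖ ≤ 1) :
    {θ : ℝ | ¬ ∃ X : Set ℕ, uld X = 1 ∧ (∀ i, ud (s i) (w i) X = 1) ∧
      AllOn X (twist d a θ)}.Countable := by
  classical
  obtain ⟨tr, htr⟩ := exists_surjective_nat (Σ k : ℕ, (Fin (k + 1) → ℕ) × ℕ)
  -- all averagings together with the logarithmic one
  obtain ⟨s', w', hsw', hs0, hs1⟩ := addLog s w hsw
  -- the bad scales of the first `m` conditions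
  set Bad : ℕ → ℝ → Set ℕ := fun m θ => {x | ∃ i < m, (∀ j, j ≠ 0 → (tr i).2.1 j ≠ (tr i).2.1 0) ∧
    ¬ GoodAt (tr i).2.1 (1 / ((((tr i).2.2 : ℕ) : ℝ) + 1)) (twist d a θ) x} with hBad
  have hone : ∀ m, ∃ (K : ℕ) (c : ℝ), 0 < c ∧ ∀ T : Finset ℝ,
      (∀ θ ∈ T, ∀ θ' ∈ T, |θ - θ'| ≤ c) → ∀ᶠ N : ℕ in atTop, ∀ S : Finset ℝ, S ⊆ T →
      (∀ θ ∈ S, N ∈ Bad m θ) → S.card ≤ K := by
    intro m
    induction m with
    | zero =>
      refine ⟨0, 1, one_pos, fun T _ => Eventually.of_forall fun N S _ hS => ?_⟩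
      rw [Nat.le_zero, card_eq_zero, eq_empty_iff_forall_notMem]
      intro θ hθ
      obtain ⟨i, hi, _⟩ := hS θ hθ
      omega
    | succ m ih =>
      obtain ⟨K, c, hc, hK⟩ := ih
      by_cases hm : ∀ j, j ≠ 0 → (tr m).2.1 j ≠ (tr m).2.1 0
      · obtain ⟨K', c', hc', hK'⟩ := stepA ha hC hdiv (tr m).1 (tr m).2.1 hm
          (ε := 1 / ((((tr m).2.2 : ℕ) : ℝ) + 1)) (by positivity)
        refine ⟨K + K', min c c', lt_min hc hc', fun T hT => ?_⟩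
        filter_upwards [hK T fun θ hθ θ' hθ' => (hT θ hθ θ' hθ').trans (min_le_left _ _),
          hK' d hd T fun θ hθ θ' hθ' => (hT θ hθ θ' hθ').trans (min_le_right _ _)] with N h1 h2 S hS hSb
        have h3 : S = S.filter (fun θ => N ∈ Bad m θ) ∪ S.filter (fun θ => ¬ N ∈ Bad m θ) :=
          (filter_union_filter_not_eq _ S).symm
        rw [h3]
        refine (card_union_le _ _).trans (add_le_add (h1 _ ((filter_subset _ _).trans hS)
          fun θ hθ => (mem_filter.1 hθ).2) (h2 _ ((filter_subset _ _).trans hS) fun θ hθ => ?_))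
        rw [mem_filter] at hθ
        obtain ⟨i, hi, hi1, hi2⟩ := hSb θ hθ.1
        rcases Nat.lt_succ_iff_lt_or_eq.1 hi with h4 | h4
        · exact absurd ⟨i, h4, hi1, hi2⟩ hθ.2
        · subst h4
          exact hi2
      · refine ⟨K, c, hc, fun T hT => ?_⟩
        filter_upwards [hK T hT] with N h1 S hS hSb
        refine h1 S hS fun θ hθ => ?_
        obtain ⟨i, hi, hi1, hi2⟩ := hSb θ hθ
        rcases Nat.lt_succ_iff_lt_or_eq.1 hi with h4 | h4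
        · exact ⟨i, h4, hi1, hi2⟩
        · subst h4
          exact absurd hi1 hm
  refine (ctb s' w' hsw' Bad hone).mono ?_
  intro θ hθ
  by_contra hcon
  have hcon' : ∀ i m, 1 ≤ ud (s' i) (w' i) (Bad m θ)ᶜ := by
    intro i m
    by_contra h1
    exact hcon ⟨i, m, not_le.1 h1⟩
  refine hθ ?_
  obtain ⟨X, hX1, hX2⟩ := diag s' w' hsw' (fun m => (Bad m θ)ᶜ) (fun m x hx hx' => by
    obtain ⟨i, hi, h1⟩ := hx'
    exact hx ⟨i, by omega, h1⟩) hcon'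
  refine ⟨X, (hs0 X).trans (hX1 0), fun i => (hs1 i X).trans (hX1 (i + 1)), fun k h hne ε hε => ?_⟩
  obtain ⟨r, hr⟩ := exists_nat_one_div_lt hε
  obtain ⟨i, hi⟩ := htr ⟨k, h, r⟩
  obtain ⟨x₀, hx₀⟩ := hX2 (i + 1)
  refine ⟨x₀, fun x hx hxx => ?_⟩
  have h1 := hx₀ x hx hxx
  have h2 : ¬ x ∈ Bad (i + 1) θ := h1
  have h3 : GoodAt h (1 / ((r : ℝ) + 1)) (twist d a θ) x := by
    by_contra h4
    refine h2 ⟨i, by omega, ?_⟩
    rw [hi]
    exact ⟨hne, h4⟩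
  exact fun F hF0 hF => (h3 F hF0 hF).trans hr.le

end Pool.H47.AT
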