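import Mathlib
import Pool.Agent.H47.AT.Core

/-!
The case `a = Ω`: twists by `z ^ Ω(n)`, `z` on the unit circle.
-/

set_option autoImplicit false

open Finset Filter Topology

namespace Pool.H47.AT

/-- twists by `z ^ Ω(n)`: all but countably many `z` on the unit circle -/
theorem part3 (s : ℕ → ℕ → Finset ℕ) (w : ℕ → ℕ → ℕ → ℝ) (hsw : ∀ i, IsAvg (s i) (w i))
    (d : ℕ → ℂ) (hd : ∀ n, 0 < n → ‖d n‖ ≤ 1) :
    {z : ℂ | ‖z‖ = 1 ∧ ¬ ∃ X : Set ℕ, uld X = 1 ∧ (∀ i, ud (s i) (w i) X = 1) ∧
      AllOn X (fun n => d n * z ^ ArithmeticFunction.cardFactors n)}.Countable := by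
  have hA : IsAdd (fun n => (ArithmeticFunction.cardFactors n : ℝ)) := by
    intro m n hm hn _
    simp only
    rw [ArithmeticFunction.cardFactors_mul hm.ne' hn.ne']
    push_cast
    rfl
  have hP : ∀ p : ℕ, p.Prime → ((ArithmeticFunction.cardFactors p : ℕ) : ℝ) = 1 := by
    intro p hp
    rw [ArithmeticFunction.cardFactors_apply_prime hp, Nat.cast_one]
  have hC : ∀ p : ℕ, p.Prime → |(fun n => (ArithmeticFunction.cardFactors n : ℝ)) p| ≤ 1 := by
    intro p hp
    simp only
    rw [hP p hp, abs_one]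
  have hdiv : ¬ Summable (fun p : ℕ => if p.Prime then
      (fun n => (ArithmeticFunction.cardFactors n : ℝ)) p ^ 2 / (p : ℝ) else 0) := by
    intro hs
    refine not_summable_one_div_on_primes ?_
    refine hs.congr fun p => ?_
    rw [Set.indicator_apply]
    simp only [Set.mem_ofPred_eq]
    split_ifs with hp
    · rw [hP p hp, one_pow]
    · rfl
  have h1 := part2 hA hC hdiv s w hsw d hd
  refine (h1.image fun θ : ℝ => Complex.exp ((θ : ℂ) * Complex.I)).mono ?_
  rintro z ⟨hz, hz2⟩
  refine ⟨z.arg, ?_, ?_⟩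
  · intro hX
    refine hz2 ?_
    convert hX using 5 with X
    unfold twist
    funext n
    congr 1
    have h2 := Complex.norm_mul_exp_arg_mul_I z
    rw [hz, Complex.ofReal_one, one_mul] at h2
    conv_lhs => rw [← h2]
    rw [← Complex.exp_nat_mul]
    congr 1
    push_cast
    ring
  · have h2 := Complex.norm_mul_exp_arg_mul_I z
    rw [hz, Complex.ofReal_one, one_mul] at h2
    exact h2

end Pool.H47.AT
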